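import Pool.Agent.Y883.GJ.Stm3
import Pool.Agent.TH212.EH.A0
import Pool.Agent.TH935.LP.L1

set_option autoImplicit false

/-! Lemmas for the error term of the ternary equation. -/

namespace Pool.Agent.Y898.GJ

open Finset
open Pool.Agent.H807R2.Dav (ee ee_add norm_ee ee_int)
open Pool.Agent.Y883.GJ

/-- the l2 norm of the vector of the classes -/
noncomputable def nr (n P : ℕ) (G : ℕ → ℂ) (x : ℝ) : ℝ :=
  if h : n = 0 then 0 else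
    haveI : NeZero n := ⟨h⟩
    Real.sqrt (∑ l : ZMod n, ‖cl n P G x l‖ ^ 2)

lemma nr_eq (n P : ℕ) [NeZero n] (G : ℕ → ℂ) (x : ℝ) :
    nr n P G x = Real.sqrt (∑ l : ZMod n, ‖cl n P G x l‖ ^ 2) := by
  unfold nr
  rw [dif_neg (NeZero.ne n)]

lemma nr_nonneg (n P : ℕ) (G : ℕ → ℂ) (x : ℝ) : 0 ≤ nr n P G x := by
  unfold nr
  split_ifs
  · exact le_rfl
  · exact Real.sqrt_nonneg _

lemma nr_sq (n P : ℕ) [NeZero n] (G : ℕ → ℂ) (x : ℝ) :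
    nr n P G x ^ 2 = ∑ l : ZMod n, ‖cl n P G x l‖ ^ 2 := by
  rw [nr_eq, Real.sq_sqrt (Finset.sum_nonneg fun _ _ => by positivity)]

/-- the phase is constant on the classes -/
lemma norm_cl_shift (n P : ℕ) [NeZero n] (G : ℕ → ℂ) (x : ℝ) (h : ℤ) (l : ZMod n) :
    ‖cl n P G (x + (h : ℝ) / n) l‖ = ‖cl n P G x l‖ := by
  have hn : (n : ℝ) ≠ 0 := by exact_mod_cast NeZero.ne n
  have key : cl n P G (x + (h : ℝ) / n) l =
      ee ((l.val : ℝ) * ((h : ℝ) / n)) * cl n P G x l := by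
    unfold cl
    rw [Finset.mul_sum]
    refine Finset.sum_congr rfl fun m hm => ?_
    rw [Finset.mem_filter] at hm
    have hmod : ∃ z : ℤ, (m : ℝ) = l.val + n * z := by
      have h1 : ((m : ℤ) : ZMod n) = ((l.val : ℤ) : ZMod n) := by
        push_cast
        rw [hm.2, ZMod.natCast_zmod_val]
      rw [ZMod.intCast_eq_intCast_iff_dvd_sub] at h1
      obtain ⟨z, hz⟩ := h1
      refine ⟨-z, ?_⟩
      have h2 : ((l.val : ℝ) - m) = n * z := by exact_mod_cast hz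
      push_cast
      linarith
    obtain ⟨z, hz⟩ := hmod
    have e : (m : ℝ) * (x + h / n) = (l.val : ℝ) * (h / n) + m * x + ((h * z : ℤ) : ℝ) := by
      push_cast
      rw [mul_add]
      have : (m : ℝ) * (h / n) = l.val * (h / n) + h * z := by
        rw [hz]; field_simp
      linarith
    rw [e, ee_add, ee_int, mul_one, ee_add]
    ring
  rw [key, norm_mul, norm_ee, one_mul]

lemma nr_shift (n P : ℕ) [NeZero n] (G : ℕ → ℂ) (x y : ℝ) (h : ℤ) (e : y = x + (h : ℝ) / n) :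
    nr n P G y = nr n P G x := by
  rw [nr_eq, nr_eq, e]
  simp only [norm_cl_shift]

/-- few classes lie above a class -/
lemma card_above (K Q k : ℕ) [NeZero K] (hK : K = k * Q) (hQ : 0 < Q) (d : ZMod Q) :
    (univ.filter (fun d' : ZMod K => ((d'.val : ℕ) : ZMod Q) = d)).card ≤ k := by
  classical
  have h1 : (univ.filter (fun d' : ZMod K => ((d'.val : ℕ) : ZMod Q) = d)).card ≤
      (range k).card := by
    refine Finset.card_le_card_of_injOn (fun d' => d'.val / Q) ?_ ?_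
    · intro x _
      have h2 : x.val < K := ZMod.val_lt x
      simp only [Finset.coe_range, Set.mem_Iio]
      rw [Nat.div_lt_iff_lt_mul hQ, ← hK]
      exact h2
    · intro x hx y hy hxy
      simp only [Finset.coe_filter, Finset.mem_univ, true_and, Set.mem_setOf_eq] at hx hy
      simp only at hxy
      have h2 : ((x.val : ℕ) : ZMod Q) = ((y.val : ℕ) : ZMod Q) := hx.trans hy.symm
      rw [ZMod.natCast_eq_natCast_iff'] at h2
      have h3 : x.val = y.val := by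
        rw [← Nat.div_add_mod x.val Q, ← Nat.div_add_mod y.val Q, hxy, h2]
      exact ZMod.val_injective K h3
  rwa [Finset.card_range] at h1

/-- the mean square of a function bounded by divisors -/
lemma sum_sq_le {P : ℕ} {G : ℕ → ℂ} {L : ℝ} (hP : 1 ≤ P) (hL : Real.log P ≤ L) (hL64 : 64 ≤ L)
    (bd : ∀ n ∈ Icc 1 P, ‖G n‖ ≤ 2 * Real.log P * (n.divisors.card : ℝ)) :
    ∑ n ∈ Icc 1 P, ‖G n‖ ^ 2 ≤ P * L ^ 7 := by
  have hl0 : 0 ≤ Real.log P := Real.log_nonneg (by exact_mod_cast hP)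
  have h1 : ∀ n ∈ Icc 1 P, ‖G n‖ ^ 2 ≤ 4 * L ^ 2 * (n.divisors.card : ℝ) ^ 2 := by
    intro n hn
    have h2 : ‖G n‖ ≤ 2 * L * (n.divisors.card : ℝ) := (bd n hn).trans (by gcongr)
    calc ‖G n‖ ^ 2 ≤ (2 * L * (n.divisors.card : ℝ)) ^ 2 := by gcongr
      _ = 4 * L ^ 2 * (n.divisors.card : ℝ) ^ 2 := by ring
  refine (Finset.sum_le_sum h1).trans ?_
  rw [← Finset.mul_sum]
  have h2 := Pool.Agent.TH935.LD.tau_pow_sum 2 P
  have h3 : (1 + Real.log P) ^ (2 ^ 2) ≤ 16 * L ^ 4 := by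
    have : 1 + Real.log P ≤ 2 * L := by linarith
    calc (1 + Real.log P) ^ (2 ^ 2) ≤ (2 * L) ^ (2 ^ 2) := by gcongr
      _ = 16 * L ^ 4 := by ring
  calc 4 * L ^ 2 * ∑ n ∈ Icc 1 P, (n.divisors.card : ℝ) ^ 2
      ≤ 4 * L ^ 2 * (P * (16 * L ^ 4)) := by
        gcongr
        exact h2.trans (by gcongr)
    _ = P * (64 * L ^ 6) := by ring
    _ ≤ P * (L * L ^ 6) := by gcongr
    _ = P * L ^ 7 := by ring

/-- Cauchy and Schwarz for the mean values over the points -/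
lemma sum_nr_mul {M P P' n n' : ℕ} {G G' : ℕ → ℂ} {x x' : ℕ → ℝ} {X X' : ℝ} (hX : 0 ≤ X)
    (h : ∑ t ∈ range M, nr n P G (x t) ^ 2 ≤ M * X)
    (h' : ∑ t ∈ range M, nr n' P' G' (x' t) ^ 2 ≤ M * X') :
    ∑ t ∈ range M, nr n P G (x t) * nr n' P' G' (x' t) ≤ M * Real.sqrt (X * X') := by
  refine (Real.sum_mul_le_sqrt_mul_sqrt _ _ _).trans ?_
  refine (mul_le_mul (Real.sqrt_le_sqrt h) (Real.sqrt_le_sqrt h') (Real.sqrt_nonneg _)
    (Real.sqrt_nonneg _)).trans (le_of_eq ?_)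
  rw [← Real.sqrt_mul (by positivity), Real.sqrt_mul hX]
  have e : (M : ℝ) * X * (M * X') = (M : ℝ) ^ 2 * (X * X') := by ring
  rw [e, Real.sqrt_mul (by positivity), Real.sqrt_sq (by positivity), Real.sqrt_mul hX]

/-- Parseval with a free form of the modulus -/
lemma pars_nr (h4 : TParsStm) {c : ℤ} {k q P M n R : ℕ} (F : ℕ → ℂ) (hn : n = k * q) (hk : 1 ≤ k)
    (hq : 1 ≤ q) (hM : 1 ≤ M) (hc : c ≠ 0) (hP : P ≤ M * q) (hR : R = M * (c.natAbs * q)) :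
    ∑ t ∈ range M, nr n P F (c * ((t : ℝ) / (R : ℕ))) ^ 2 = M * ∑ m ∈ Icc 1 P, ‖F m‖ ^ 2 := by
  subst hn
  subst hR
  haveI : NeZero (k * q) := ⟨Nat.mul_ne_zero (by omega) (by omega)⟩
  rw [← h4.2 c k q P M F hk hq hM hc hP]
  exact Finset.sum_congr rfl fun t _ => nr_sq _ _ _ _

/-- the mean square over the classes on the minor arcs -/
lemma minor_sq (h5 : OrthStm) {c : ℕ} (hc : ∀ (q N : ℕ) [NeZero q] (F : ℕ → ℂ) (ℓ T β : ℝ), 1 ≤ N →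
      1 + Real.log N ≤ ℓ →
      (∀ n ∈ Icc 1 N, ‖F n‖ ≤ ℓ * (n.divisors.card : ℝ)) →
      (∑ n ∈ (Icc 1 N).filter (fun n => ¬ n.Coprime q), ‖F n‖ ≤ T) →
      ∑ l ∈ univ.filter (fun l : ZMod q => ¬ IsUnit l), ‖cl q N F β l‖ ^ 2 ≤
      ((N : ℝ) / q + 1) * Real.sqrt (T * (N * ℓ ^ c)))
    {B₀ A₂ P n : ℕ} [NeZero n] {G : ℕ → ℂ} {β L : ℝ} (hP : 1 ≤ P) (hnP : n ≤ P)
    (hL1 : Real.log P ≤ L) (hL2 : L ≤ 3 * Real.log P)
    (hA2 : c + 2 * B₀ + 1 ≤ A₂) (hLb : 16 * (3 : ℝ) ^ (c + A₂) ≤ L)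
    (hLc : 2 * (3 : ℝ) ^ (B₀ + 3) ≤ L)
    (bd : ∀ n ∈ Icc 1 P, ‖G n‖ ≤ 2 * Real.log P * (n.divisors.card : ℝ))
    (nc : ∑ m ∈ (Icc 1 P).filter (fun m => ¬ m.Coprime n), ‖G m‖ ≤ P / Real.log P ^ A₂)
    (hmn : ∑ χ : DirichletCharacter ℂ n, ‖cs n P G β χ‖ ^ 2 ≤ (P : ℝ) ^ 2 / Real.log P ^ (B₀ + 2)) :
    ∑ l : ZMod n, ‖cl n P G β l‖ ^ 2 ≤ (P : ℝ) ^ 2 / (n * L ^ B₀) := by
  classical
  have hn0 : 0 < n := Nat.pos_of_ne_zero (NeZero.ne n)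
  have hn0' : (0 : ℝ) < n := by exact_mod_cast hn0
  have hP0 : (0 : ℝ) < P := by exact_mod_cast (show 0 < P by omega)
  have hnP' : (n : ℝ) ≤ P := by exact_mod_cast hnP
  have h3 : (1 : ℝ) ≤ 3 ^ (c + A₂) := one_le_pow₀ (by norm_num)
  have hL16 : 16 ≤ L := by linarith
  have hL0 : 0 < L := by linarith
  have hl0 : 0 < Real.log P := by linarith
  have hφ0 : (0 : ℝ) < n.totient := by exact_mod_cast Nat.totient_pos.2 hn0
  -- units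
  have hU : ∑ l ∈ univ.filter (fun l : ZMod n => IsUnit l), ‖cl n P G β l‖ ^ 2 ≤
      (P : ℝ) ^ 2 / (2 * (n * L ^ B₀)) := by
    have e1 := (h5 n P G β ∅).2.2
    have e2 := Pool.Agent.TH212.EH.inv_phi n hn0 P hnP
    have e3 : ∑ l ∈ univ.filter (fun l : ZMod n => IsUnit l), ‖cl n P G β l‖ ^ 2 =
        1 / (n.totient : ℝ) * ∑ χ : DirichletCharacter ℂ n, ‖cs n P G β χ‖ ^ 2 := by
      rw [e1]; field_simp
    rw [e3]
    have e4 : (P : ℝ) ^ 2 / Real.log P ^ (B₀ + 2) ≤ (P : ℝ) ^ 2 * 3 ^ (B₀ + 2) / L ^ (B₀ + 2) := by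
      rw [div_le_div_iff₀ (by positivity) (by positivity)]
      have : L ^ (B₀ + 2) ≤ (3 * Real.log P) ^ (B₀ + 2) := by gcongr
      rw [mul_pow] at this
      calc (P : ℝ) ^ 2 * L ^ (B₀ + 2) ≤ (P : ℝ) ^ 2 * (3 ^ (B₀ + 2) * Real.log P ^ (B₀ + 2)) := by
            gcongr
        _ = _ := by ring
    calc 1 / (n.totient : ℝ) * ∑ χ : DirichletCharacter ℂ n, ‖cs n P G β χ‖ ^ 2
        ≤ ((1 + 2 * Real.log P) * (1 / n)) * ((P : ℝ) ^ 2 * 3 ^ (B₀ + 2) / L ^ (B₀ + 2)) :=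
          mul_le_mul e2 (hmn.trans e4) (Finset.sum_nonneg fun _ _ => by positivity)
            (by positivity)
      _ ≤ ((3 * L) * (1 / n)) * ((P : ℝ) ^ 2 * 3 ^ (B₀ + 2) / L ^ (B₀ + 2)) := by
          gcongr
          linarith
      _ = ((P : ℝ) ^ 2 / (n * L ^ B₀)) * (3 ^ (B₀ + 3) / L) := by
          rw [pow_add L, pow_add (3 : ℝ) B₀ 3, pow_add (3 : ℝ) B₀ 2]
          field_simp
      _ ≤ ((P : ℝ) ^ 2 / (n * L ^ B₀)) * (1 / 2) := by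
          refine mul_le_mul_of_nonneg_left ?_ (by positivity)
          rw [div_le_div_iff₀ hL0 (by norm_num)]
          linarith
      _ = _ := by field_simp
  have hN : ∑ l ∈ univ.filter (fun l : ZMod n => ¬ IsUnit l), ‖cl n P G β l‖ ^ 2 ≤
      (P : ℝ) ^ 2 / (2 * (n * L ^ B₀)) := by
    have e1 := hc n P G (3 * L) (P / Real.log P ^ A₂) β hP (by linarith) (fun m hm =>
      (bd m hm).trans (by gcongr; linarith)) nc
    refine e1.trans ?_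
    have e2 : (P : ℝ) / Real.log P ^ A₂ * (P * (3 * L) ^ c) ≤ ((P : ℝ) / (4 * L ^ B₀)) ^ 2 := by
      have e3 : (P : ℝ) / Real.log P ^ A₂ ≤ P * 3 ^ A₂ / L ^ A₂ := by
        rw [div_le_div_iff₀ (by positivity) (by positivity)]
        have : L ^ A₂ ≤ (3 * Real.log P) ^ A₂ := by gcongr
        rw [mul_pow] at this
        calc (P : ℝ) * L ^ A₂ ≤ (P : ℝ) * (3 ^ A₂ * Real.log P ^ A₂) := by gcongr
          _ = _ := by ring
      obtain ⟨j, hj⟩ : ∃ j, A₂ = c + 2 * B₀ + 1 + j := ⟨A₂ - (c + 2 * B₀ + 1), by omega⟩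
      calc (P : ℝ) / Real.log P ^ A₂ * (P * (3 * L) ^ c)
          ≤ (P * 3 ^ A₂ / L ^ A₂) * (P * (3 * L) ^ c) := by gcongr
        _ = (P : ℝ) ^ 2 * 3 ^ (c + A₂) * (L ^ c / L ^ A₂) := by
            rw [mul_pow, pow_add (3 : ℝ) c A₂]
            field_simp
        _ ≤ (P : ℝ) ^ 2 * (L / 16) * (L ^ c / L ^ A₂) := by
            gcongr
            linarith
        _ = (P : ℝ) ^ 2 / (16 * (L ^ (2 * B₀) * L ^ j)) := by
            rw [hj, pow_add, pow_add, pow_add, pow_one]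
            field_simp
        _ ≤ (P : ℝ) ^ 2 / (16 * (L ^ (2 * B₀) * 1)) := by
            gcongr
            exact one_le_pow₀ (by linarith)
        _ = _ := by
            rw [div_pow, mul_pow, mul_one, ← pow_mul, mul_comm B₀ 2]
            norm_num
    have e4 : Real.sqrt ((P : ℝ) / Real.log P ^ A₂ * (P * (3 * L) ^ c)) ≤ (P : ℝ) / (4 * L ^ B₀) := by
      refine (Real.sqrt_le_sqrt e2).trans (le_of_eq ?_)
      exact Real.sqrt_sq (by positivity)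
    have e5 : (P : ℝ) / n + 1 ≤ 2 * (P / n) := by
      have : 1 ≤ (P : ℝ) / n := by rw [le_div_iff₀ hn0']; linarith
      linarith
    calc ((P : ℝ) / n + 1) * Real.sqrt ((P : ℝ) / Real.log P ^ A₂ * (P * (3 * L) ^ c))
        ≤ (2 * (P / n)) * (P / (4 * L ^ B₀)) := mul_le_mul e5 e4 (Real.sqrt_nonneg _) (by positivity)
      _ = _ := by field_simp; ring
  have hsplit : ∑ l : ZMod n, ‖cl n P G β l‖ ^ 2 =
      ∑ l ∈ univ.filter (fun l : ZMod n => IsUnit l), ‖cl n P G β l‖ ^ 2 +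
      ∑ l ∈ univ.filter (fun l : ZMod n => ¬ IsUnit l), ‖cl n P G β l‖ ^ 2 :=
    (Finset.sum_filter_add_sum_filter_not _ _ _).symm
  rw [hsplit]
  refine (add_le_add hU hN).trans (le_of_eq ?_)
  field_simp
  ring

/-- the approximation theorem of Dirichlet -/
lemma dirich (ξ : ℝ) {n : ℕ} (hn : 0 < n) : ∃ (h : ℤ) (k : ℕ), 1 ≤ k ∧ k ≤ n ∧
    IsCoprime h (k : ℤ) ∧ |ξ - h / k| ≤ 1 / ((n + 1) * k) := by
  obtain ⟨r, hr1, hr2⟩ := Real.exists_rat_abs_sub_le_and_den_le ξ hn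
  refine ⟨r.num, r.den, r.pos, hr2, ?_, ?_⟩
  · rw [Int.isCoprime_iff_gcd_eq_one]
    exact r.reduced
  · rw [← Rat.cast_def]
    exact hr1

lemma sq_le_of_rpow {q P : ℕ} {ρ : ℝ} (hP : 1 ≤ P) (hρ : 0 < ρ)
    (h : (q : ℝ) ≤ (P : ℝ) ^ (1 / 2 - ρ)) : q ^ 2 ≤ P := by
  have hP' : (1 : ℝ) ≤ P := by exact_mod_cast hP
  have h1 : (q : ℝ) ≤ Real.sqrt P := by
    rw [Real.sqrt_eq_rpow]
    exact h.trans (Real.rpow_le_rpow_of_exponent_le hP' (by linarith))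
  have h2 : (q : ℝ) ^ 2 ≤ P := by
    calc (q : ℝ) ^ 2 ≤ Real.sqrt P ^ 2 := by gcongr
      _ = (P : ℝ) := Real.sq_sqrt (by positivity)
  exact_mod_cast h2

/-- the sizes -/
lemma sizes {N a1 a2 a3 P1 P2 : ℕ} (ha2 : 1 ≤ a2)
    (h1 : (a2 * a3) ^ 2 ≤ P1) (h2 : (a1 * a3) ^ 2 ≤ P2) (ha3 : 1 ≤ a3)
    (u1 : a1 * P1 ≤ N) (u2 : a2 * P2 ≤ N) (v1 : N < 2 * (a1 * P1)) :
    (a1 * a2 * a3) ^ 4 ≤ N ^ 3 ∧ N ≤ 4 * P1 ^ 2 := by
  have e1 : a1 ^ 2 ≤ N := by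
    calc a1 ^ 2 ≤ (a1 * a3) ^ 2 := by gcongr; exact Nat.le_mul_of_pos_right _ (by omega)
      _ ≤ P2 := h2
      _ ≤ a2 * P2 := Nat.le_mul_of_pos_left _ (by omega)
      _ ≤ N := u2
  constructor
  · calc (a1 * a2 * a3) ^ 4 = (a1 ^ 2 * (a2 * a3) ^ 2) ^ 2 := by ring
      _ ≤ (a1 ^ 2 * P1) ^ 2 := by gcongr
      _ = a1 ^ 2 * (a1 * P1) ^ 2 := by ring
      _ ≤ N * N ^ 2 := by gcongr
      _ = N ^ 3 := by ring
  · rcases Nat.eq_zero_or_pos N with h0 | h0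
    · rw [h0]; exact Nat.zero_le _
    · have e2 : N * N ≤ N * (4 * P1 ^ 2) := by
        calc N * N ≤ (2 * (a1 * P1)) * (2 * (a1 * P1)) := Nat.mul_le_mul v1.le v1.le
          _ = a1 ^ 2 * (4 * P1 ^ 2) := by ring
          _ ≤ N * (4 * P1 ^ 2) := by gcongr
      exact Nat.le_of_mul_le_mul_left e2 h0

lemma log_low {N P : ℕ} (hN : 1 ≤ N) (hP : 1 ≤ P) (h : N ≤ 4 * P ^ 2) (hL : 64 ≤ Real.log N) :
    Real.log N ≤ 3 * Real.log P := by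
  have hP0 : (0 : ℝ) < P := by exact_mod_cast (show 0 < P by omega)
  have hN0 : (0 : ℝ) < N := by exact_mod_cast (show 0 < N by omega)
  have h1 : Real.log N ≤ Real.log (4 * (P : ℝ) ^ 2) := Real.log_le_log hN0 (by exact_mod_cast h)
  rw [Real.log_mul (by norm_num) (by positivity), Real.log_pow] at h1
  have h2 : Real.log 4 ≤ 3 := by
    have := Real.log_le_sub_one_of_pos (show (0 : ℝ) < 4 by norm_num)
    linarith
  push_cast at h1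
  linarith

/-- the three products -/
noncomputable def Sk (c1 c2 c3 : ℤ) (P1 P2 P3 : ℕ) (G1 G2 G3 : ℕ → ℂ) (k : ℕ) (b : ℝ) : ℝ :=
  P1 / Real.sqrt (c2.natAbs * c3.natAbs) *
    (nr (k * c1.natAbs * c3.natAbs) P2 G2 (c2 * b) * nr (k * c1.natAbs * c2.natAbs) P3 G3 (c3 * b)) +
  P2 / Real.sqrt (c1.natAbs * c3.natAbs) *
    (nr (k * c2.natAbs * c3.natAbs) P1 G1 (c1 * b) * nr (k * c1.natAbs * c2.natAbs) P3 G3 (c3 * b)) +
  P3 / Real.sqrt (c1.natAbs * c2.natAbs) *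
    (nr (k * c2.natAbs * c3.natAbs) P1 G1 (c1 * b) * nr (k * c1.natAbs * c3.natAbs) P2 G2 (c2 * b))

lemma Sk_nonneg (c1 c2 c3 : ℤ) (P1 P2 P3 : ℕ) (G1 G2 G3 : ℕ → ℂ) (k : ℕ) (b : ℝ) :
    0 ≤ Sk c1 c2 c3 P1 P2 P3 G1 G2 G3 k b := by
  unfold Sk
  have := nr_nonneg (k * c1.natAbs * c3.natAbs) P2 G2 (c2 * b)
  have := nr_nonneg (k * c1.natAbs * c2.natAbs) P3 G3 (c3 * b)
  have := nr_nonneg (k * c2.natAbs * c3.natAbs) P1 G1 (c1 * b)
  positivity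

/-- one point of the minor arcs -/
lemma minor_pt (h2 : TNormStm) {c1 c2 c3 : ℤ} {P1 P2 P3 : ℕ} {G1 G2 G3 : ℕ → ℂ} {b X : ℝ}
    [NeZero (1 * c2.natAbs * c3.natAbs)] [NeZero (1 * c1.natAbs * c3.natAbs)]
    [NeZero (1 * c1.natAbs * c2.natAbs)] (g12 : IsCoprime c1 c2) (g13 : IsCoprime c1 c3)
    (g23 : IsCoprime c2 c3) (d : ZMod (1 * c1.natAbs * c2.natAbs * c3.natAbs)) (hX : 0 ≤ X)
    (hA : ∑ x : ZMod (1 * c2.natAbs * c3.natAbs), ‖cl _ P1 G1 (c1 * b) x‖ ^ 2 ≤ X ^ 2) :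
    ‖T3 c1 c2 c3 1 d (cl _ P1 G1 (c1 * b)) (cl _ P2 G2 (c2 * b)) (cl _ P3 G3 (c3 * b))‖ ≤
      X * (nr (1 * c1.natAbs * c3.natAbs) P2 G2 (c2 * b) *
        nr (1 * c1.natAbs * c2.natAbs) P3 G3 (c3 * b)) := by
  have h := h2 c1 c2 c3 1 g12 g13 g23 d (cl _ P1 G1 (c1 * b)) (cl _ P2 G2 (c2 * b))
    (cl _ P3 G3 (c3 * b))
  rw [← nr_sq (1 * c1.natAbs * c3.natAbs), ← nr_sq (1 * c1.natAbs * c2.natAbs)] at h
  have h0 := nr_nonneg (1 * c1.natAbs * c3.natAbs) P2 G2 (c2 * b)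
  have h0' := nr_nonneg (1 * c1.natAbs * c2.natAbs) P3 G3 (c3 * b)
  refine le_of_sq_le_sq ?_ (by positivity)
  refine h.trans ?_
  have e : (X * (nr (1 * c1.natAbs * c3.natAbs) P2 G2 (c2 * b) *
        nr (1 * c1.natAbs * c2.natAbs) P3 G3 (c3 * b))) ^ 2 = ((1 : ℕ) : ℝ) * X ^ 2 *
        nr (1 * c1.natAbs * c3.natAbs) P2 G2 (c2 * b) ^ 2 *
        nr (1 * c1.natAbs * c2.natAbs) P3 G3 (c3 * b) ^ 2 := by
    rw [Nat.cast_one]; ring
  rw [e]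
  gcongr

/-- one point of the major arcs -/
lemma major_pt (h3 : TLiftStm) {c1 c2 c3 d h : ℤ} {P1 P2 P3 k : ℕ} {G1 G2 G3 : ℕ → ℂ} {b η W : ℝ}
    [NeZero (k * c2.natAbs * c3.natAbs)]
    [NeZero (k * c1.natAbs * c3.natAbs)] [NeZero (k * c1.natAbs * c2.natAbs)]
    [NeZero (1 * c2.natAbs * c3.natAbs)]
    [NeZero (1 * c1.natAbs * c3.natAbs)] [NeZero (1 * c1.natAbs * c2.natAbs)]
    [NeZero (k * c1.natAbs * c2.natAbs * c3.natAbs)]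
    (n1 : c1 ≠ 0) (n2 : c2 ≠ 0) (n3 : c3 ≠ 0) (hk : 1 ≤ k)
    (hb : b = h / (k * c1.natAbs * c2.natAbs * c3.natAbs : ℕ) + η) (hW : 0 ≤ W)
    (hT : ∀ d' : ZMod (k * c1.natAbs * c2.natAbs * c3.natAbs),
      ((d'.val : ℕ) : ZMod (1 * c1.natAbs * c2.natAbs * c3.natAbs)) =
        (d : ZMod (1 * c1.natAbs * c2.natAbs * c3.natAbs)) →
      ‖T3 c1 c2 c3 k d' (cl _ P1 G1 (c1 * η)) (cl _ P2 G2 (c2 * η)) (cl _ P3 G3 (c3 * η))‖ ≤
    W *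
      (P1 / Real.sqrt (c2.natAbs * c3.natAbs) *
        (Real.sqrt (∑ x, ‖cl (k * c1.natAbs * c3.natAbs) P2 G2 (c2 * η) x‖ ^ 2) *
          Real.sqrt (∑ x, ‖cl (k * c1.natAbs * c2.natAbs) P3 G3 (c3 * η) x‖ ^ 2)) +
       P2 / Real.sqrt (c1.natAbs * c3.natAbs) *
        (Real.sqrt (∑ x, ‖cl (k * c2.natAbs * c3.natAbs) P1 G1 (c1 * η) x‖ ^ 2) *
          Real.sqrt (∑ x, ‖cl (k * c1.natAbs * c2.natAbs) P3 G3 (c3 * η) x‖ ^ 2)) +
       P3 / Real.sqrt (c1.natAbs * c2.natAbs) *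
        (Real.sqrt (∑ x, ‖cl (k * c2.natAbs * c3.natAbs) P1 G1 (c1 * η) x‖ ^ 2) *
          Real.sqrt (∑ x, ‖cl (k * c1.natAbs * c3.natAbs) P2 G2 (c2 * η) x‖ ^ 2)))) :
    ‖T3 c1 c2 c3 1 (d : ZMod (1 * c1.natAbs * c2.natAbs * c3.natAbs))
      (cl _ P1 G1 (c1 * b)) (cl _ P2 G2 (c2 * b)) (cl _ P3 G3 (c3 * b))‖ ≤
      k * (W * Sk c1 c2 c3 P1 P2 P3 G1 G2 G3 k b) := by
  classical
  have ha1 : (c1.natAbs : ℝ) ≠ 0 := by exact_mod_cast Int.natAbs_ne_zero.mpr n1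
  have ha2 : (c2.natAbs : ℝ) ≠ 0 := by exact_mod_cast Int.natAbs_ne_zero.mpr n2
  have ha3 : (c3.natAbs : ℝ) ≠ 0 := by exact_mod_cast Int.natAbs_ne_zero.mpr n3
  have hk0 : (k : ℝ) ≠ 0 := by exact_mod_cast (show k ≠ 0 by omega)
  have sg : ∀ c : ℤ, (c : ℝ) = (c.sign : ℝ) * (c.natAbs : ℝ) := by
    intro c
    calc (c : ℝ) = ((c.sign * (c.natAbs : ℤ) : ℤ) : ℝ) := by rw [Int.sign_mul_natAbs]
      _ = _ := by rw [Int.cast_mul, Int.cast_natCast]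
  have f1 : nr (k * c2.natAbs * c3.natAbs) P1 G1 (c1 * b) =
      nr (k * c2.natAbs * c3.natAbs) P1 G1 (c1 * η) := by
    apply nr_shift _ _ _ _ _ (c1.sign * h)
    rw [hb]
    simp only [Nat.cast_mul, Int.cast_mul]
    rw [mul_add, sg c1]
    field_simp
    ring
  have f2 : nr (k * c1.natAbs * c3.natAbs) P2 G2 (c2 * b) =
      nr (k * c1.natAbs * c3.natAbs) P2 G2 (c2 * η) := by
    apply nr_shift _ _ _ _ _ (c2.sign * h)
    rw [hb]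
    simp only [Nat.cast_mul, Int.cast_mul]
    rw [mul_add, sg c2]
    field_simp
    ring
  have f3 : nr (k * c1.natAbs * c2.natAbs) P3 G3 (c3 * b) =
      nr (k * c1.natAbs * c2.natAbs) P3 G3 (c3 * η) := by
    apply nr_shift _ _ _ _ _ (c3.sign * h)
    rw [hb]
    simp only [Nat.cast_mul, Int.cast_mul]
    rw [mul_add, sg c3]
    field_simp
    ring
  refine (h3 c1 c2 c3 k P1 P2 P3 G1 G2 G3 h d b η hb).trans ?_
  have hS : Sk c1 c2 c3 P1 P2 P3 G1 G2 G3 k b = (P1 / Real.sqrt (c2.natAbs * c3.natAbs) *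
        (Real.sqrt (∑ x, ‖cl (k * c1.natAbs * c3.natAbs) P2 G2 (c2 * η) x‖ ^ 2) *
          Real.sqrt (∑ x, ‖cl (k * c1.natAbs * c2.natAbs) P3 G3 (c3 * η) x‖ ^ 2)) +
       P2 / Real.sqrt (c1.natAbs * c3.natAbs) *
        (Real.sqrt (∑ x, ‖cl (k * c2.natAbs * c3.natAbs) P1 G1 (c1 * η) x‖ ^ 2) *
          Real.sqrt (∑ x, ‖cl (k * c1.natAbs * c2.natAbs) P3 G3 (c3 * η) x‖ ^ 2)) +
       P3 / Real.sqrt (c1.natAbs * c2.natAbs) *
        (Real.sqrt (∑ x, ‖cl (k * c2.natAbs * c3.natAbs) P1 G1 (c1 * η) x‖ ^ 2) *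
          Real.sqrt (∑ x, ‖cl (k * c1.natAbs * c3.natAbs) P2 G2 (c2 * η) x‖ ^ 2))) := by
    unfold Sk
    rw [f1, f2, f3, nr_eq, nr_eq, nr_eq]
  have hWS : 0 ≤ W * Sk c1 c2 c3 P1 P2 P3 G1 G2 G3 k b := mul_nonneg hW (Sk_nonneg _ _ _ _ _ _ _ _ _ _ _)
  refine (Finset.sum_le_card_nsmul _ _ (W * Sk c1 c2 c3 P1 P2 P3 G1 G2 G3 k b) ?_).trans ?_
  · intro d' hd'
    rw [Finset.mem_filter] at hd'
    rw [hS]
    exact hT d' hd'.2
  · rw [nsmul_eq_mul]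
    refine mul_le_mul_of_nonneg_right ?_ hWS
    have := card_above (k * c1.natAbs * c2.natAbs * c3.natAbs) (1 * c1.natAbs * c2.natAbs * c3.natAbs) k
      (by ring) (by
        have := Int.natAbs_pos.mpr n1
        have := Int.natAbs_pos.mpr n2
        have := Int.natAbs_pos.mpr n3
        positivity) (d : ZMod (1 * c1.natAbs * c2.natAbs * c3.natAbs))
    exact_mod_cast this

end Pool.Agent.Y898.GJ
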