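import Pool.Agent.Y898.GJ.TernA

set_option autoImplicit false

/-! The error term of the ternary equation (job GJ-TERN). -/

namespace Pool.Agent.Y898.GJ

open Finset
open Pool.Agent.H807R2.Dav (ee)
open Pool.Agent.Y883.GJ

lemma str_mono {ρ : ℝ} {A A' C C₃ P : ℕ} {G : ℕ → ℂ} (h : Str ρ A C C₃ P G) (hA : A' ≤ A)
    (hl : 1 ≤ Real.log P) : Str ρ A' C C₃ P G where
  bd := h.bd
  nc := fun q h1 h2 => (h.nc q h1 h2).trans
    (div_le_div_of_nonneg_left (by positivity) (by positivity) (pow_le_pow_right₀ hl hA))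
  maj := fun q _ hq => by
    obtain ⟨B, hB1, hB2⟩ := h.maj q hq
    exact ⟨B, hB1, fun η hη S hS => (hB2 η hη S hS).trans
      (div_le_div_of_nonneg_left (by positivity) (by positivity) (pow_le_pow_right₀ hl hA))⟩

lemma ev_log_le (k : ℕ) (c : ℝ) : ∃ x0 : ℕ, ∀ x : ℕ, x0 ≤ x → c * Real.log x ^ k ≤ (x : ℝ) := by
  have h := (isLittleO_log_rpow_rpow_atTop (k : ℝ) (show (0 : ℝ) < 1 by norm_num)).bound
    (show 0 < 1 / (|c| + 1) by positivity)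
  have h2 := (tendsto_natCast_atTop_atTop (R := ℝ)).eventually h
  obtain ⟨x0, hx0⟩ := Filter.eventually_atTop.1 h2
  refine ⟨max x0 1, fun x hx => ?_⟩
  have h3 := hx0 x (le_trans (le_max_left _ _) hx)
  have hx1 : (1 : ℝ) ≤ x := by exact_mod_cast (le_trans (le_max_right _ _) hx)
  have hl : 0 ≤ Real.log x := Real.log_nonneg hx1
  rw [Real.rpow_natCast, Real.rpow_one, Real.norm_of_nonneg (by positivity),
    Real.norm_of_nonneg (by positivity)] at h3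
  have h4 : (|c| + 1) * Real.log x ^ k ≤ x := by
    have h5 : 0 < |c| + 1 := by positivity
    calc (|c| + 1) * Real.log x ^ k ≤ (|c| + 1) * (1 / (|c| + 1) * x) := by gcongr
      _ = x := by field_simp
  have h6 : c * Real.log x ^ k ≤ (|c| + 1) * Real.log x ^ k := by
    gcongr
    linarith [le_abs_self c]
  linarith

lemma ev_log_ge (K : ℝ) : ∃ x0 : ℕ, ∀ x : ℕ, x0 ≤ x → K ≤ Real.log x := by
  have h := (Real.tendsto_log_atTop.comp (tendsto_natCast_atTop_atTop (R := ℝ))).eventually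
    (Filter.eventually_ge_atTop K)
  exact Filter.eventually_atTop.1 h

lemma term_le {a1 a2 a3 p1 p2 p3 N : ℝ} (h1 : 0 < a1) (h2 : 0 < a2) (h3 : 0 < a3) (hp1 : 0 ≤ p1)
    (hp2 : 0 ≤ p2) (hp3 : 0 ≤ p3) (u1 : a1 * p1 ≤ N) (u2 : a2 * p2 ≤ N) (u3 : a3 * p3 ≤ N) :
    p1 / Real.sqrt (a2 * a3) * Real.sqrt (p2 * p3) ≤ N ^ 2 / (a1 * a2 * a3) := by
  have hN : 0 ≤ N := le_trans (by positivity) u1
  have hs : 0 < Real.sqrt (a2 * a3) := Real.sqrt_pos.mpr (by positivity)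
  have hss : Real.sqrt (a2 * a3) * Real.sqrt (a2 * a3) = a2 * a3 := Real.mul_self_sqrt (by positivity)
  have e1 : Real.sqrt (p2 * p3) ≤ N / Real.sqrt (a2 * a3) := by
    rw [le_div_iff₀ hs, ← Real.sqrt_mul (by positivity)]
    have : p2 * p3 * (a2 * a3) ≤ N ^ 2 := by
      calc p2 * p3 * (a2 * a3) = (a2 * p2) * (a3 * p3) := by ring
        _ ≤ N * N := mul_le_mul u2 u3 (by positivity) hN
        _ = N ^ 2 := by ring
    calc Real.sqrt (p2 * p3 * (a2 * a3)) ≤ Real.sqrt (N ^ 2) := Real.sqrt_le_sqrt this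
      _ = N := Real.sqrt_sq hN
  have e2 : p1 ≤ N / a1 := by rw [le_div_iff₀ h1]; linarith
  calc p1 / Real.sqrt (a2 * a3) * Real.sqrt (p2 * p3)
      ≤ (N / a1) / Real.sqrt (a2 * a3) * (N / Real.sqrt (a2 * a3)) := by gcongr
    _ = N ^ 2 / (a1 * (Real.sqrt (a2 * a3) * Real.sqrt (a2 * a3))) := by field_simp
    _ = N ^ 2 / (a1 * a2 * a3) := by rw [hss]; ring_nf

lemma mean_Sk (h4 : TParsStm) {c1 c2 c3 : ℤ} {N P1 P2 P3 M k R : ℕ} {G1 G2 G3 : ℕ → ℂ} {L : ℝ}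
    (n1 : c1 ≠ 0) (n2 : c2 ≠ 0) (n3 : c3 ≠ 0) (hk : 1 ≤ k) (hM : 1 ≤ M)
    (u1 : c1.natAbs * P1 ≤ N) (u2 : c2.natAbs * P2 ≤ N) (u3 : c3.natAbs * P3 ≤ N) (hNM : N ≤ M)
    (hL : 0 ≤ L) (s1 : ∑ n ∈ Icc 1 P1, ‖G1 n‖ ^ 2 ≤ P1 * L ^ 7)
    (s2 : ∑ n ∈ Icc 1 P2, ‖G2 n‖ ^ 2 ≤ P2 * L ^ 7) (s3 : ∑ n ∈ Icc 1 P3, ‖G3 n‖ ^ 2 ≤ P3 * L ^ 7)
    (hR : R = M * (c1.natAbs * c2.natAbs * c3.natAbs)) :
    ∑ t ∈ range M, Sk c1 c2 c3 P1 P2 P3 G1 G2 G3 k ((t : ℝ) / (R : ℕ)) ≤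
      M * (3 * ((N : ℝ) ^ 2 / (c1.natAbs * c2.natAbs * c3.natAbs)) * L ^ 7) := by
  have ha1 : 0 < c1.natAbs := Int.natAbs_pos.mpr n1
  have ha2 : 0 < c2.natAbs := Int.natAbs_pos.mpr n2
  have ha3 : 0 < c3.natAbs := Int.natAbs_pos.mpr n3
  obtain ⟨a1, e1⟩ : ∃ a, a = c1.natAbs := ⟨_, rfl⟩
  obtain ⟨a2, e2⟩ : ∃ a, a = c2.natAbs := ⟨_, rfl⟩
  obtain ⟨a3, e3⟩ : ∃ a, a = c3.natAbs := ⟨_, rfl⟩
  have hP : ∀ {a P b b' : ℕ}, 0 < a → 0 < b → 0 < b' → a * P ≤ N → P ≤ M * (b * b') := by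
    intro a P b b' h0 hb hb' h
    calc P ≤ a * P := Nat.le_mul_of_pos_left _ h0
      _ ≤ M := h.trans hNM
      _ ≤ M * (b * b') := Nat.le_mul_of_pos_right _ (Nat.mul_pos hb hb')
  have p1 := pars_nr (k := k) (q := c2.natAbs * c3.natAbs) (P := P1) (M := M)
    (n := k * c2.natAbs * c3.natAbs) (R := R) h4 G1 (by ring) hk (Nat.mul_pos ha2 ha3) hM n1
    (hP ha1 ha2 ha3 u1) (by rw [hR]; ring)
  have p2 := pars_nr (k := k) (q := c1.natAbs * c3.natAbs) (P := P2) (M := M)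
    (n := k * c1.natAbs * c3.natAbs) (R := R) h4 G2 (by ring) hk (Nat.mul_pos ha1 ha3) hM n2
    (hP ha2 ha1 ha3 u2) (by rw [hR]; ring)
  have p3 := pars_nr (k := k) (q := c1.natAbs * c2.natAbs) (P := P3) (M := M)
    (n := k * c1.natAbs * c2.natAbs) (R := R) h4 G3 (by ring) hk (Nat.mul_pos ha1 ha2) hM n3
    (hP ha3 ha1 ha2 u3) (by rw [hR]; ring)
  have q1 := p1.le.trans (mul_le_mul_of_nonneg_left s1 (Nat.cast_nonneg M))
  have q2 := p2.le.trans (mul_le_mul_of_nonneg_left s2 (Nat.cast_nonneg M))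
  have q3 := p3.le.trans (mul_le_mul_of_nonneg_left s3 (Nat.cast_nonneg M))
  have r23 := sum_nr_mul (by positivity) q2 q3
  have r13 := sum_nr_mul (by positivity) q1 q3
  have r12 := sum_nr_mul (by positivity) q1 q2
  have hsq : ∀ p q : ℕ, Real.sqrt ((p : ℝ) * L ^ 7 * ((q : ℝ) * L ^ 7)) =
      Real.sqrt ((p : ℝ) * q) * L ^ 7 := by
    intro p q
    have : (p : ℝ) * L ^ 7 * ((q : ℝ) * L ^ 7) = ((p : ℝ) * q) * (L ^ 7) ^ 2 := by ring
    rw [this, Real.sqrt_mul (by positivity), Real.sqrt_sq (by positivity)]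
  rw [hsq] at r23 r13 r12
  have v1 : (c1.natAbs : ℝ) * P1 ≤ N := by exact_mod_cast u1
  have v2 : (c2.natAbs : ℝ) * P2 ≤ N := by exact_mod_cast u2
  have v3 : (c3.natAbs : ℝ) * P3 ≤ N := by exact_mod_cast u3
  have b1 : (0 : ℝ) < (c1.natAbs : ℝ) := Nat.cast_pos.mpr ha1
  have b2 : (0 : ℝ) < (c2.natAbs : ℝ) := Nat.cast_pos.mpr ha2
  have b3 : (0 : ℝ) < (c3.natAbs : ℝ) := Nat.cast_pos.mpr ha3
  have t1 := term_le b1 b2 b3 (Nat.cast_nonneg P1) (Nat.cast_nonneg P2) (Nat.cast_nonneg P3) v1 v2 v3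
  have t2 := term_le b2 b1 b3 (Nat.cast_nonneg P2) (Nat.cast_nonneg P1) (Nat.cast_nonneg P3) v2 v1 v3
  have t3 := term_le b3 b1 b2 (Nat.cast_nonneg P3) (Nat.cast_nonneg P1) (Nat.cast_nonneg P2) v3 v1 v2
  rw [show (c2.natAbs : ℝ) * c1.natAbs * c3.natAbs = c1.natAbs * c2.natAbs * c3.natAbs by ring] at t2
  rw [show (c3.natAbs : ℝ) * c1.natAbs * c2.natAbs = c1.natAbs * c2.natAbs * c3.natAbs by ring] at t3
  unfold Sk
  rw [Finset.sum_add_distrib, Finset.sum_add_distrib, ← Finset.mul_sum, ← Finset.mul_sum,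
    ← Finset.mul_sum]
  have hfin : ∀ {x y z s X : ℝ}, 0 ≤ x → z ≤ M * (s * L ^ 7) → x * s ≤ X →
      x * z ≤ M * (X * L ^ 7) := by
    intro x y z s X hx hz hX
    calc x * z ≤ x * (M * (s * L ^ 7)) := mul_le_mul_of_nonneg_left hz hx
      _ = M * ((x * s) * L ^ 7) := by ring
      _ ≤ M * (X * L ^ 7) := by gcongr
  have w1 := hfin (y := 0) (by positivity) r23 t1
  have w2 := hfin (y := 0) (by positivity) r13 t2
  have w3 := hfin (y := 0) (by positivity) r12 t3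
  linarith

lemma small_eta {c : ℤ} {P N C : ℕ} {η L : ℝ} (hP : 1 ≤ P) (hN : 1 ≤ N) (u : c.natAbs * P ≤ N)
    (hL2 : L ≤ 3 * Real.log P) (hL : (3 : ℝ) ^ (C + 2) ≤ L) (hη : |η| ≤ 3 * L ^ C / N) :
    |c * η| ≤ Real.log P ^ (C + 1) / P := by
  have hP0 : (0 : ℝ) < P := by exact_mod_cast (show 0 < P by omega)
  have hN0 : (0 : ℝ) < N := by exact_mod_cast (show 0 < N by omega)
  have hL0 : 0 < L := lt_of_lt_of_le (by positivity) hL
  have e1 : |(c : ℝ)| = (c.natAbs : ℝ) := by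
    rw [Nat.cast_natAbs, Int.cast_abs]
  have u' : (c.natAbs : ℝ) * P ≤ N := by exact_mod_cast u
  rw [abs_mul, e1]
  have e2 : 3 * L ^ C ≤ Real.log P ^ (C + 1) := by
    have e3 : (L / 3) ^ (C + 1) ≤ Real.log P ^ (C + 1) := by
      apply pow_le_pow_left₀ (by positivity)
      linarith
    refine le_trans ?_ e3
    rw [div_pow, le_div_iff₀ (by positivity), pow_succ L]
    calc 3 * L ^ C * 3 ^ (C + 1) = L ^ C * 3 ^ (C + 2) := by ring
      _ ≤ L ^ C * L := by gcongr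
  calc (c.natAbs : ℝ) * |η| ≤ c.natAbs * (3 * L ^ C / N) := by gcongr
    _ = (3 * L ^ C) * (c.natAbs / N) := by ring
    _ ≤ (3 * L ^ C) * (1 / P) := by
        gcongr (3 * L ^ C) * ?_
        rw [div_le_div_iff₀ hN0 hP0]
        linarith
    _ ≤ Real.log P ^ (C + 1) * (1 / P) := by gcongr
    _ = _ := by ring

end Pool.Agent.Y898.GJ
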